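import Pool.Agent.Lib.MP_226ef1_lc.U.IfaceC

/-!
# Module COMPT: the tables of the family are primitive recursive
-/

set_option autoImplicit false

namespace Pool.Agent.Lib.MP_226ef1_lc.U.H76

open Pool.Agent.Lib.MP_226ef1_lc.U

section gen
variable {α : Type} [Primcodable α]

/-- bounded existential quantifier with parameters -/
theorem ppe {q : α → ℕ → Prop} (hq : PrimrecRel q) {b : α → ℕ} (hb : Primrec b) :
    PrimrecPred fun a => ∃ x < b a, q a x := by
  have h1 : PrimrecRel fun (x : ℕ) (a : α) => q a x := hq.swap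
  have h2 : PrimrecRel fun (L : List ℕ) (a : α) => ∃ x ∈ L, q a x := h1.exists_mem_list
  refine PrimrecPred.of_eq (h2.comp (Primrec.list_range.comp hb) Primrec.id) fun a => ?_
  simp

theorem ppe2 {q : α → ℕ → ℕ → Prop} (hq : PrimrecPred fun x : (α × ℕ) × ℕ => q x.1.1 x.1.2 x.2)
    {b : α → ℕ} (hb : Primrec b) : PrimrecPred fun a => ∃ x < b a, ∃ y < b a, q a x y :=
  ppe (q := fun a x => ∃ y < b a, q a x y)
    (ppe (α := α × ℕ) (q := fun p y => q p.1 p.2 y) hq (hb.comp Primrec.fst)) hb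

theorem ppe3 {q : α → ℕ → ℕ → ℕ → Prop}
    (hq : PrimrecPred fun x : ((α × ℕ) × ℕ) × ℕ => q x.1.1.1 x.1.1.2 x.1.2 x.2)
    {b : α → ℕ} (hb : Primrec b) :
    PrimrecPred fun a => ∃ x < b a, ∃ y < b a, ∃ z < b a, q a x y z :=
  ppe (q := fun a x => ∃ y < b a, ∃ z < b a, q a x y z)
    (ppe2 (α := α × ℕ) (q := fun p y z => q p.1 p.2 y z) hq (hb.comp Primrec.fst)) hb

theorem pl_sum : Primrec (List.sum : List ℕ → ℕ) := by
  refine (Primrec.list_foldr (f := fun l : List ℕ => l) (g := fun _ => 0)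
    (h := fun _ p => p.1 + p.2) Primrec.id (Primrec.const 0) ?_).of_eq fun l => ?_
  · exact Primrec.nat_add.comp (Primrec.fst.comp Primrec.snd) (Primrec.snd.comp Primrec.snd)
  · induction l with
    | nil => rfl
    | cons a l ih => simp only [List.foldr_cons, List.sum_cons, ih]

theorem pr_mem : PrimrecRel fun (c : ℕ) (w : List ℕ) => c ∈ w := by
  have h : PrimrecRel fun (L : List ℕ) (b : ℕ) => ∃ a ∈ L, a = b :=
    PrimrecRel.exists_mem_list (R := fun a b : ℕ => a = b) Primrec.eq
  refine PrimrecRel.of_eq h.swap fun c w => ?_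
  simp

theorem pr_forall_list (X : List ℕ) {w : α → List ℕ} (hw : Primrec w) :
    PrimrecPred fun a => ∀ c ∈ X, c ∈ w a := by
  have h : PrimrecRel fun (L : List ℕ) (b : List ℕ) => ∀ a ∈ L, a ∈ b :=
    PrimrecRel.forall_mem_list pr_mem
  exact h.comp (Primrec.const X) hw

theorem pr_forall_list2 (X : List ℕ) {w : α → List ℕ} (hw : Primrec w) :
    PrimrecPred fun a => ∀ c ∈ w a, c ∈ X := by
  have h : PrimrecRel fun (L : List ℕ) (b : List ℕ) => ∀ a ∈ L, a ∈ b :=
    PrimrecRel.forall_mem_list pr_mem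
  exact h.comp hw (Primrec.const X)

theorem pr_rep (o : ℕ) {n : α → ℕ} (hn : Primrec n) :
    Primrec fun a => List.replicate (n a) o := by
  refine (Primrec.list_map (Primrec.list_range.comp hn) (g := fun _ _ => o)
    (Primrec₂.const o)).of_eq fun a => ?_
  simp [List.map_const']

theorem pr_blk (o : ℕ) {x y n : α → ℕ} (hx : Primrec x) (hn : Primrec n) (hy : Primrec y) :
    Primrec fun a => blk o (x a) (n a) (y a) :=
  Primrec.list_cons.comp hx (Primrec.list_append.comp (pr_rep o hn)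
    (Primrec.list_cons.comp hy (Primrec.const [])))

theorem pr_par {w : α → List ℕ} (hw : Primrec w) : PrimrecPred fun a => (w a).sum % 2 = 0 :=
  Primrec.eq.comp (Primrec.nat_mod.comp (pl_sum.comp hw) (Primrec.const 2)) (Primrec.const 0)

theorem pr_len {w : α → List ℕ} {l : α → ℕ} (hw : Primrec w) (hl : Primrec l) :
    PrimrecPred fun a => (w a).length = l a :=
  Primrec.eq.comp (Primrec.list_length.comp hw) hl

theorem pr_nfw (r h : ℕ) {l : α → ℕ} {w : α → List ℕ} (hl : Primrec l) (hw : Primrec w) :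
    PrimrecPred fun a => nfw (l a) r h (w a) :=
  (pr_len hw hl).and ((pr_par hw).and (pr_forall_list (sds r h) hw).not)

theorem pr_dd {f : α → ℕ} (hf : Primrec f) : Primrec fun a => dd (f a) :=
  Primrec.nat_add.comp (Primrec.nat_mul.comp (Primrec.const 4) hf) (Primrec.const 7)

theorem pr_oo {f : α → ℕ} (hf : Primrec f) : Primrec fun a => oo (f a) :=
  Primrec.nat_add.comp (Primrec.nat_mul.comp (Primrec.const 4) hf) (Primrec.const 4)

theorem pr_cc {f : α → ℕ} (hf : Primrec f) : Primrec fun a => cc (f a) :=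
  Primrec.nat_add.comp (Primrec.nat_mul.comp (Primrec.const 4) hf) (Primrec.const 5)

theorem pr_kk {f : α → ℕ} (hf : Primrec f) : Primrec fun a => kk (f a) :=
  Primrec.nat_add.comp (Primrec.nat_mul.comp (Primrec.const 4) hf) (Primrec.const 6)

theorem pr_full (X : List ℕ) (o : ℕ) {l : α → ℕ} {w : α → List ℕ} (hl : Primrec l)
    (hw : Primrec w) :
    PrimrecPred fun a => (w a).length = l a ∧ (w a).sum % 2 = 0 ∧
      ∀ c, c ∈ w a ↔ (c ∈ X ∨ c = o) := by
  refine ((pr_len hw hl).and ((pr_par hw).and ((pr_forall_list2 (X ++ [o]) hw).and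
    (pr_forall_list (X ++ [o]) hw)))).of_eq fun a => ?_
  simp only [List.mem_append, List.mem_singleton]
  constructor
  · rintro ⟨h1, h2, h3, h4⟩
    exact ⟨h1, h2, fun c => ⟨h3 c, h4 c⟩⟩
  · rintro ⟨h1, h2, h3⟩
    exact ⟨h1, h2, fun c => (h3 c).1, fun c => (h3 c).2⟩

theorem pr_full0 (X : List ℕ) {l : α → ℕ} {w : α → List ℕ} (hl : Primrec l)
    (hw : Primrec w) :
    PrimrecPred fun a => (w a).length = l a ∧ (w a).sum % 2 = 0 ∧ ∀ c, c ∈ w a ↔ c ∈ X := by
  refine ((pr_len hw hl).and ((pr_par hw).and ((pr_forall_list2 X hw).and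
    (pr_forall_list X hw)))).of_eq fun a => ?_
  constructor
  · rintro ⟨h1, h2, h3, h4⟩
    exact ⟨h1, h2, fun c => ⟨h3 c, h4 c⟩⟩
  · rintro ⟨h1, h2, h3⟩
    exact ⟨h1, h2, fun c => (h3 c).1, fun c => (h3 c).2⟩

end gen

/-- tables of general templates -/
theorem pr_mkT (hW : WordscStatement) (r h : ℕ) {l m cb : ℕ → ℕ} {D : ℕ → ℕ → Prop}
    {bad : ℕ → List ℕ → Prop} (hl : Primrec l) (hm : Primrec m) (hcb : Primrec cb)
    (hD : PrimrecRel D) (hbad : PrimrecRel bad) :
    Primrec fun n => (mkT (l n) r h (D n) (m n) (bad n)).tab (cb n) := by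
  have hcols : PrimrecRel fun (n c : ℕ) => (∃ i, i < r ∧ c = cc i) ∨ (∃ i, i < h ∧ c = kk i) ∨
      (∃ k, D n k ∧ c = dd k) ∨ (∃ i, i < m n ∧ c = oo i) := by
    have h1 : PrimrecPred fun a : ℕ × ℕ => ∃ i < r, a.2 = cc i :=
      ppe (q := fun (a : ℕ × ℕ) i => a.2 = cc i)
        (Primrec.eq.comp (Primrec.snd.comp Primrec.fst) (pr_cc Primrec.snd)) (Primrec.const r)
    have h2 : PrimrecPred fun a : ℕ × ℕ => ∃ i < h, a.2 = kk i :=
      ppe (q := fun (a : ℕ × ℕ) i => a.2 = kk i)
        (Primrec.eq.comp (Primrec.snd.comp Primrec.fst) (pr_kk Primrec.snd)) (Primrec.const h)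
    have h3 : PrimrecPred fun a : ℕ × ℕ => ∃ k < a.2, D a.1 k ∧ a.2 = dd k :=
      ppe (q := fun (a : ℕ × ℕ) k => D a.1 k ∧ a.2 = dd k)
        ((hD.comp (Primrec.fst.comp Primrec.fst) Primrec.snd).and
          (Primrec.eq.comp (Primrec.snd.comp Primrec.fst) (pr_dd Primrec.snd))) Primrec.snd
    have h4 : PrimrecPred fun a : ℕ × ℕ => ∃ i < m a.1, a.2 = oo i :=
      ppe (q := fun (a : ℕ × ℕ) i => a.2 = oo i)
        (Primrec.eq.comp (Primrec.snd.comp Primrec.fst) (pr_oo Primrec.snd))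
        (hm.comp Primrec.fst)
    refine PrimrecPred.of_eq (h1.or (h2.or (h3.or h4))) fun a => ?_
    refine or_congr Iff.rfl (or_congr Iff.rfl (or_congr ?_ Iff.rfl))
    constructor
    · rintro ⟨k, _, h5⟩
      exact ⟨k, h5⟩
    · rintro ⟨k, h5, h6⟩
      exact ⟨k, by unfold dd at h6; omega, h5, h6⟩
  exact hW.2 l _ (sds r h) bad cb hl hcols hbad hcb

theorem le_sum {c : ℕ} {w : List ℕ} (h : c ∈ w) : c ≤ w.sum := by
  induction w with
  | nil => simp at h
  | cons a w ih =>
    rcases List.mem_cons.1 h with rfl | h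
    · simp
    · simp only [List.sum_cons]
      exact (ih h).trans (Nat.le_add_left _ _)

/-- bound for the quantified variables -/
def bnd (w : List ℕ) : ℕ := w.length + w.sum + 1

theorem pr_bnd {α : Type} [Primcodable α] {w : α → List ℕ} (hw : Primrec w) :
    Primrec fun a => bnd (w a) :=
  Primrec.nat_add.comp (Primrec.nat_add.comp (Primrec.list_length.comp hw) (pl_sum.comp hw))
    (Primrec.const 1)

theorem lt_bnd {c : ℕ} {w : List ℕ} (h : c ∈ w) : c < bnd w := by
  have := le_sum h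
  unfold bnd
  omega

theorem blk_lt {o x n y : ℕ} : n < bnd (blk o x n y) := by
  have : (blk o x n y).length = n + 2 := by simp [blk]
  unfold bnd
  omega

theorem blk_lt_left {o n y k : ℕ} : k < bnd (blk o (dd k) n y) := by
  have := lt_bnd (c := dd k) (w := blk o (dd k) n y) (by simp [blk])
  unfold dd at this ⊢
  omega

theorem blk_lt_right {o x n k : ℕ} : k < bnd (blk o x n (dd k)) := by
  have := lt_bnd (c := dd k) (w := blk o x n (dd k)) (by simp [blk])
  unfold dd at this ⊢
  omega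

/-- module COMPT -/
theorem compt (hW : WordscStatement) : ComptStatement := by
  intro J _ hb hin hst hsu hle
  have hL : Primrec fun n => (J n).L :=
    Primrec.nat_mul.comp (Primrec.const 8) (Primrec.nat_add.comp hb (Primrec.const 3))
  have hcb : Primrec fun n => cbd (J n) :=
    Primrec.nat_add.comp (Primrec.nat_mul.comp (Primrec.const 4) (Primrec.nat_add.comp hb hL))
      (Primrec.const 40)
  have hinJ : ∀ {α : Type} [Primcodable α] {f g : α → ℕ}, Primrec f → Primrec g →
      PrimrecPred fun a => (J (f a)).inJ (g a) = true := fun hf hg =>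
    Primrec.eq.comp (hin.comp hf hg) (Primrec.const true)
  have hsuc : ∀ {α : Type} [Primcodable α] {f g : α → ℕ}, Primrec f → Primrec g →
      PrimrecPred fun a => (J (f a)).succ (g a) = false := fun hf hg =>
    Primrec.eq.comp (hsu.comp hf hg) (Primrec.const false)
  have hstar : ∀ {α : Type} [Primcodable α] {f g : α → ℕ}, Primrec f → Primrec g →
      Primrec fun a => (J (f a)).star (g a) := fun hf hg => hst.comp hf hg
  have hleg : ∀ {α : Type} [Primcodable α] {f g h k : α → ℕ}, Primrec f → Primrec g →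
      Primrec h → Primrec k → PrimrecPred fun a => (J (f a)).legal (g a) (h a) (k a) = true :=
    fun hf hg hh hk => Primrec.eq.comp
      (hle.comp (hf.pair (hg.pair (hh.pair hk)))) (Primrec.const true)
  have hp : ∀ {α : Type} [Primcodable α] {f : α → ℕ}, Primrec f →
      Primrec fun a => f a + 2 := fun hf => Primrec.nat_add.comp hf (Primrec.const 2)
  -- the forbidden words of `T1`
  have hbad1 : PrimrecRel fun n w => bad1 (J n) w := by
    have h0 : PrimrecPred fun a : ℕ × List ℕ => a.2.length ≤ (J a.1).L :=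
      Primrec.nat_le.comp (Primrec.list_length.comp Primrec.snd) (hL.comp Primrec.fst)
    have h1 : PrimrecPred fun a : ℕ × List ℕ => ∃ k < bnd a.2, ∃ m < bnd a.2,
        (J a.1).inJ k = true ∧ (J a.1).succ k = false ∧ m ≠ k + 2 ∧
          a.2 = blk (oo 0) (cc 0) m (dd k) :=
      ppe2 (q := fun (a : ℕ × List ℕ) k m => (J a.1).inJ k = true ∧ (J a.1).succ k = false ∧
        m ≠ k + 2 ∧ a.2 = blk (oo 0) (cc 0) m (dd k))
        ((hinJ (Primrec.fst.comp (Primrec.fst.comp Primrec.fst))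
          (Primrec.snd.comp Primrec.fst)).and
        ((hsuc (Primrec.fst.comp (Primrec.fst.comp Primrec.fst))
          (Primrec.snd.comp Primrec.fst)).and
        ((Primrec.eq.comp Primrec.snd (hp (Primrec.snd.comp Primrec.fst))).not.and
        (Primrec.eq.comp (Primrec.snd.comp (Primrec.fst.comp Primrec.fst))
          (pr_blk (oo 0) (Primrec.const (cc 0)) Primrec.snd
            (pr_dd (Primrec.snd.comp Primrec.fst))))))) (pr_bnd Primrec.snd)
    have h2 : PrimrecPred fun a : ℕ × List ℕ => ∃ k < bnd a.2, ∃ m < bnd a.2,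
        (J a.1).inJ k = true ∧ (J a.1).succ k = false ∧ m ≠ (J a.1).star k + 2 ∧
          a.2 = blk (oo 0) (dd k) m (cc 0) :=
      ppe2 (q := fun (a : ℕ × List ℕ) k m => (J a.1).inJ k = true ∧ (J a.1).succ k = false ∧
        m ≠ (J a.1).star k + 2 ∧ a.2 = blk (oo 0) (dd k) m (cc 0))
        ((hinJ (Primrec.fst.comp (Primrec.fst.comp Primrec.fst))
          (Primrec.snd.comp Primrec.fst)).and
        ((hsuc (Primrec.fst.comp (Primrec.fst.comp Primrec.fst))
          (Primrec.snd.comp Primrec.fst)).and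
        ((Primrec.eq.comp Primrec.snd (hp (hstar (Primrec.fst.comp (Primrec.fst.comp
          Primrec.fst)) (Primrec.snd.comp Primrec.fst)))).not.and
        (Primrec.eq.comp (Primrec.snd.comp (Primrec.fst.comp Primrec.fst))
          (pr_blk (oo 0) (pr_dd (Primrec.snd.comp Primrec.fst)) Primrec.snd
            (Primrec.const (cc 0))))))) (pr_bnd Primrec.snd)
    have h3 : PrimrecPred fun a : ℕ × List ℕ => ∃ m < bnd a.2, m ≠ 1 ∧
        a.2 = blk (oo 0) (cc 0) m (cc 0) :=
      ppe (q := fun (a : ℕ × List ℕ) m => m ≠ 1 ∧ a.2 = blk (oo 0) (cc 0) m (cc 0))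
        ((Primrec.eq.comp Primrec.snd (Primrec.const 1)).not.and
        (Primrec.eq.comp (Primrec.snd.comp Primrec.fst)
          (pr_blk (oo 0) (Primrec.const (cc 0)) Primrec.snd (Primrec.const (cc 0)))))
        (pr_bnd Primrec.snd)
    refine PrimrecPred.of_eq (h0.and (h1.or (h2.or h3))) fun a => ?_
    unfold bad1
    refine and_congr Iff.rfl (or_congr ?_ (or_congr ?_ ?_))
    · constructor
      · rintro ⟨k, _, m, _, h⟩
        exact ⟨k, m, h⟩
      · rintro ⟨k, m, h⟩
        refine ⟨k, ?_, m, ?_, h⟩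
        · rw [h.2.2.2]; exact blk_lt_right
        · rw [h.2.2.2]; exact blk_lt
    · constructor
      · rintro ⟨k, _, m, _, h⟩
        exact ⟨k, m, h⟩
      · rintro ⟨k, m, h⟩
        refine ⟨k, ?_, m, ?_, h⟩
        · rw [h.2.2.2]; exact blk_lt_left
        · rw [h.2.2.2]; exact blk_lt
    · constructor
      · rintro ⟨m, _, h⟩
        exact ⟨m, h⟩
      · rintro ⟨m, h⟩
        refine ⟨m, ?_, h⟩
        rw [h.2]; exact blk_lt
  -- the forbidden words of `L3`
  have hbad3 : PrimrecRel fun n w => bad3 (J n) w := by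
    have h1 : PrimrecPred fun a : ℕ × List ℕ => ∃ i < bnd a.2, ∃ j < bnd a.2, ∃ k < bnd a.2,
        (J a.1).inJ i = true ∧ (J a.1).inJ j = true ∧ (J a.1).inJ k = true ∧
        (J a.1).legal i j k = true ∧
        a.2 = cc 0 :: (List.replicate (i + 2) (oo 0) ++ cc 1 :: (List.replicate (j + 2) (oo 0) ++
          cc 2 :: (List.replicate (k + 2) (oo 0) ++ [cc 0]))) := by
      refine ppe3 (q := fun (a : ℕ × List ℕ) i j k => (J a.1).inJ i = true ∧
        (J a.1).inJ j = true ∧ (J a.1).inJ k = true ∧ (J a.1).legal i j k = true ∧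
        a.2 = cc 0 :: (List.replicate (i + 2) (oo 0) ++ cc 1 :: (List.replicate (j + 2) (oo 0) ++
          cc 2 :: (List.replicate (k + 2) (oo 0) ++ [cc 0])))) ?_ (pr_bnd Primrec.snd)
      have e0 : Primrec fun x : (((ℕ × List ℕ) × ℕ) × ℕ) × ℕ => x.1.1.1.1 :=
        Primrec.fst.comp (Primrec.fst.comp (Primrec.fst.comp Primrec.fst))
      have ew : Primrec fun x : (((ℕ × List ℕ) × ℕ) × ℕ) × ℕ => x.1.1.1.2 :=
        Primrec.snd.comp (Primrec.fst.comp (Primrec.fst.comp Primrec.fst))
      have ei : Primrec fun x : (((ℕ × List ℕ) × ℕ) × ℕ) × ℕ => x.1.1.2 :=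
        Primrec.snd.comp (Primrec.fst.comp Primrec.fst)
      have ej : Primrec fun x : (((ℕ × List ℕ) × ℕ) × ℕ) × ℕ => x.1.2 :=
        Primrec.snd.comp Primrec.fst
      have ek : Primrec fun x : (((ℕ × List ℕ) × ℕ) × ℕ) × ℕ => x.2 := Primrec.snd
      exact (hinJ e0 ei).and ((hinJ e0 ej).and ((hinJ e0 ek).and ((hleg e0 ei ej ek).and
        (Primrec.eq.comp ew (Primrec.list_cons.comp (Primrec.const (cc 0))
          (Primrec.list_append.comp (pr_rep (oo 0) (hp ei))
            (Primrec.list_cons.comp (Primrec.const (cc 1))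
              (Primrec.list_append.comp (pr_rep (oo 0) (hp ej))
                (Primrec.list_cons.comp (Primrec.const (cc 2))
                  (Primrec.list_append.comp (pr_rep (oo 0) (hp ek))
                    (Primrec.const [cc 0])))))))))))
    refine PrimrecPred.of_eq h1 fun a => ?_
    unfold bad3
    constructor
    · rintro ⟨i, _, j, _, k, _, h⟩
      exact ⟨i, j, k, h⟩
    · rintro ⟨i, j, k, h⟩
      have hlen : a.2.length = (i + 2) + (j + 2) + (k + 2) + 4 := by
        rw [h.2.2.2.2]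
        simp [TS.p]
        omega
      refine ⟨i, ?_, j, ?_, k, ?_, h⟩ <;> unfold bnd <;> omega
  -- the single tables
  have hT1 : Primrec fun n => (T1 (J n)).tab (cbd (J n)) :=
    pr_mkT hW 1 0 hL (Primrec.const 1) hcb
      (D := fun n k => (J n).inJ k = true ∧ (J n).succ k = false)
      (bad := fun n w => nfw (J n).L 1 0 w ∨ bad1 (J n) w)
      ((hinJ Primrec.fst Primrec.snd).and (hsuc Primrec.fst Primrec.snd))
      ((pr_nfw 1 0 (hL.comp Primrec.fst) Primrec.snd).or hbad1)
  have hD0 : PrimrecRel fun (_ : ℕ) (k : ℕ) => k = 0 :=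
    Primrec.eq.comp Primrec.snd (Primrec.const 0)
  have hL3 : Primrec fun n => (L3 (J n)).tab (cbd (J n)) :=
    pr_mkT hW 3 0 hL (Primrec.const 1) hcb (D := fun _ k => k = 0)
      (bad := fun n w => nfw (J n).L 3 0 w ∨ bad3 (J n) w) hD0
      ((pr_nfw 3 0 (hL.comp Primrec.fst) Primrec.snd).or hbad3)
  have hG0 : ∀ r, Primrec fun n => (G0 (J n) r).tab (cbd (J n)) := fun r =>
    pr_mkT hW r 0 hL (Primrec.const 1) hcb (D := fun _ k => k = 0)
      (bad := fun n w => nfw (J n).L r 0 w ∨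
        (w.length = (J n).L ∧ w.sum % 2 = 0 ∧ ∀ c, c ∈ w ↔ (c ∈ sds r 0 ∨ c = oo 0))) hD0
      ((pr_nfw r 0 (hL.comp Primrec.fst) Primrec.snd).or
        (pr_full (sds r 0) (oo 0) (hL.comp Primrec.fst) Primrec.snd))
  have hG1 : ∀ r, Primrec fun n => (G1 (J n) r).tab (cbd (J n)) := fun r =>
    pr_mkT hW r 1 hL (Primrec.const 1) hcb (D := fun _ k => k = 0)
      (bad := fun n w => nfw (J n).L r 1 w ∨
        (w.length = (J n).L ∧ w.sum % 2 = 0 ∧ ∀ c, c ∈ w ↔ c ∈ sds r 1)) hD0
      ((pr_nfw r 1 (hL.comp Primrec.fst) Primrec.snd).or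
        (pr_full0 (sds r 1) (hL.comp Primrec.fst) Primrec.snd))
  have hFF : ∀ r h, Primrec fun n => (FF (J n) r h).tab (cbd (J n)) := fun r h =>
    pr_mkT hW r h hL (Primrec.const 1) hcb (D := fun _ k => k = 0)
      (bad := fun n w => nfw (J n).L r h w) hD0 (pr_nfw r h (hL.comp Primrec.fst) Primrec.snd)
  have hfalse : PrimrecRel fun (_ : ℕ) (_ : ℕ) => False :=
    (hD0.comp (Primrec.const 0) (Primrec.const 1)).of_eq fun a => by simp
  have hfalse' : PrimrecRel fun (_ : ℕ) (_ : List ℕ) => False :=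
    (hD0.comp (Primrec.const 0) (Primrec.const 1)).of_eq fun a => by simp
  have hFR : ∀ g, Primrec fun n => (FR (J n) g).tab (cbd (J n)) := fun g =>
    pr_mkT hW 0 g hL hL hcb (D := fun _ _ => False) (bad := fun _ _ => False) hfalse hfalse'
  -- the list of tables
  have hmap : ∀ F : List (ℕ → Tm), (∀ τ ∈ F, Primrec fun n => (τ n).tab (cbd (J n))) →
      Primrec fun n => F.map fun τ => (τ n).tab (cbd (J n)) := by
    intro F
    induction F with
    | nil => intro _; exact Primrec.const []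
    | cons τ F ih =>
      intro h
      exact Primrec.list_cons.comp (h τ (by simp)) (ih fun τ' h' => h τ' (by simp [h']))
  refine Primrec.of_eq (hmap ([fun n => T1 (J n), fun n => L3 (J n)] ++
    (List.range 5).map (fun r n => G0 (J n) (r + 1)) ++
    (List.range 4).map (fun r n => G1 (J n) (r + 1)) ++
    [(0, 2), (0, 3), (0, 4), (0, 5), (1, 2), (1, 3), (1, 4), (2, 2), (2, 3), (3, 2)].map
      (fun (q : ℕ × ℕ) n => FF (J n) q.1 q.2) ++
    (List.range 5).map (fun g n => FR (J n) (g + 1))) ?_) fun n => ?_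
  · intro τ hτ
    simp only [List.mem_append, List.mem_map] at hτ
    rcases hτ with (((hτ | ⟨r, _, rfl⟩) | ⟨r, _, rfl⟩) | ⟨q, _, rfl⟩) | ⟨g, _, rfl⟩
    · simp only [List.mem_cons, List.not_mem_nil, or_false] at hτ
      rcases hτ with rfl | rfl
      · exact hT1
      · exact hL3
    · exact hG0 _
    · exact hG1 _
    · exact hFF _ _
    · exact hFR _
  · simp only [tabs, famL, List.map_append, List.map_map, List.map_cons, List.map_nil]
    rfl

end Pool.Agent.Lib.MP_226ef1_lc.U.H76
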