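import Pool.Agent.Lib.MP_226ef1_lc.U.IfaceM

/-!
# Module TSPR: the type system of a rule system is primitive recursive
-/

set_option autoImplicit false

namespace Pool.Agent.Lib.MP_226ef1_lc.U.H76

open Pool.Agent.Lib.MP_226ef1_lc.U

section gen
variable {α : Type*} [Primcodable α]

theorem pp_imp {p q : α → Prop} (hp : PrimrecPred p) (hq : PrimrecPred q) :
    PrimrecPred fun a => p a → q a :=
  (hp.not.or hq).of_eq fun a => by tauto

theorem pp_eq {f g : α → ℕ} (hf : Primrec f) (hg : Primrec g) :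
    PrimrecPred fun a => f a = g a := Primrec.eq.comp hf hg

theorem pp_eqc {f : α → ℕ} (hf : Primrec f) (c : ℕ) :
    PrimrecPred fun a => f a = c := Primrec.eq.comp hf (Primrec.const c)

theorem pp_nec {f : α → ℕ} (hf : Primrec f) (c : ℕ) :
    PrimrecPred fun a => f a ≠ c := (pp_eqc hf c).not

theorem pp_lt {f g : α → ℕ} (hf : Primrec f) (hg : Primrec g) :
    PrimrecPred fun a => f a < g a := Primrec.nat_lt.comp hf hg

theorem pp_ltc {f : α → ℕ} (hf : Primrec f) (c : ℕ) :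
    PrimrecPred fun a => f a < c := Primrec.nat_lt.comp hf (Primrec.const c)

theorem pp_lec {f : α → ℕ} (hf : Primrec f) (c : ℕ) :
    PrimrecPred fun a => f a ≤ c := Primrec.nat_le.comp hf (Primrec.const c)

theorem pp_cle {f : α → ℕ} (hf : Primrec f) (c : ℕ) :
    PrimrecPred fun a => c ≤ f a := Primrec.nat_le.comp (Primrec.const c) hf

theorem pp_all4 {q : ℕ → α → Prop} (h : ∀ k, PrimrecPred (q k)) :
    PrimrecPred fun a => ∀ k < 4, q k a :=
  (((h 0).and (h 1)).and ((h 2).and (h 3))).of_eq fun a => by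
    constructor
    · rintro ⟨⟨h0, h1⟩, h2, h3⟩ k hk
      interval_cases k <;> assumption
    · intro hk
      exact ⟨⟨hk 0 (by omega), hk 1 (by omega)⟩, hk 2 (by omega), hk 3 (by omega)⟩

theorem pp_all3 {q : ℕ → α → Prop} (h : ∀ k, PrimrecPred (q k)) :
    PrimrecPred fun a => ∀ k < 3, q k a :=
  (((h 0).and (h 1)).and (h 2)).of_eq fun a => by
    constructor
    · rintro ⟨⟨h0, h1⟩, h2⟩ k hk
      interval_cases k <;> assumption
    · intro hk
      exact ⟨⟨hk 0 (by omega), hk 1 (by omega)⟩, hk 2 (by omega)⟩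

theorem p1 {f : α → ℕ} (hf : Primrec f) : Primrec fun a => (f a).unpair.1 :=
  Primrec.fst.comp (Primrec.unpair.comp hf)

theorem p2 {f : α → ℕ} (hf : Primrec f) : Primrec fun a => (f a).unpair.2 :=
  Primrec.snd.comp (Primrec.unpair.comp hf)

theorem pdiv {f : α → ℕ} (hf : Primrec f) (c : ℕ) : Primrec fun a => f a / c :=
  Primrec.nat_div.comp hf (Primrec.const c)

theorem pmod {f : α → ℕ} (hf : Primrec f) (c : ℕ) : Primrec fun a => f a % c :=
  Primrec.nat_mod.comp hf (Primrec.const c)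

theorem psub {f : α → ℕ} (hf : Primrec f) (c : ℕ) : Primrec fun a => f a - c :=
  Primrec.nat_sub.comp hf (Primrec.const c)

theorem pr_eo {f : α → ℕ} (hf : Primrec f) : Primrec fun a => eo (f a) := p1 (p1 hf)

theorem pr_es {f : α → ℕ} (hf : Primrec f) : Primrec fun a => es (f a) := p2 (p1 hf)

theorem pr_er {f : α → ℕ} (hf : Primrec f) : Primrec fun a => er (f a) := p1 (p2 hf)

theorem pr_ec {k f : α → ℕ} (hk : Primrec k) (hf : Primrec f) :
    Primrec fun a => ec (k a) (f a) := by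
  unfold ec
  exact Primrec.ite (pp_eqc hk 0) (p1 (p1 (p2 (p2 hf))))
    (Primrec.ite (pp_eqc hk 1) (p2 (p1 (p2 (p2 hf))))
      (Primrec.ite (pp_eqc hk 2) (p1 (p2 (p2 (p2 hf)))) (p2 (p2 (p2 (p2 hf))))))

theorem pr_ecc {f : α → ℕ} (hf : Primrec f) (k : ℕ) : Primrec fun a => ec k (f a) :=
  pr_ec (Primrec.const k) hf

theorem pr_t11 {f : α → ℕ} (hf : Primrec f) : Primrec fun a => t11 (f a) := p1 (p1 hf)
theorem pr_t12 {f : α → ℕ} (hf : Primrec f) : Primrec fun a => t12 (f a) := p2 (p1 hf)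
theorem pr_t21 {f : α → ℕ} (hf : Primrec f) : Primrec fun a => t21 (f a) := p1 (p2 hf)
theorem pr_t22 {f : α → ℕ} (hf : Primrec f) : Primrec fun a => t22 (f a) := p2 (p2 hf)

theorem pr_mkTy {f g h k : α → ℕ} (hf : Primrec f) (hg : Primrec g) (hh : Primrec h)
    (hk : Primrec k) : Primrec fun a => mkTy (f a) (g a) (h a) (k a) :=
  Primrec₂.natPair.comp (Primrec₂.natPair.comp hf hg) (Primrec₂.natPair.comp hh hk)

theorem pr_inE {m d : α → ℕ} (hm : Primrec m) (hd : Primrec d) :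
    PrimrecPred fun a => inE (m a) (d a) :=
  (pp_ltc (pr_eo hd) 3).and ((pp_ltc (pr_es hd) 2).and ((pp_lt (pr_er hd) hm).and
    (pp_all4 fun k => pp_ltc (pr_ecc hd k) 6)))

theorem pr_hcell {x y : α → ℕ} (hx : Primrec x) (hy : Primrec y) :
    PrimrecPred fun a => hcell (x a) (y a) :=
  ((pp_cle hx 2).and (pp_cle hy 1)).or ((pp_lec hx 1).and (pp_eqc hy 0))

theorem pr_vcell {t x y : α → ℕ} (ht : Primrec t) (hx : Primrec x) (hy : Primrec y) :
    PrimrecPred fun a => vcell (t a) (x a) (y a) :=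
  ((pp_lec ht 1).and (pp_eq hy hx)).or
    (((pp_cle ht 2).and ((pp_lec ht 5).and
      (((pp_cle hx 2).and (pp_eq hy hx)).or
        (((pp_eqc hx 1).and (pp_eq hy ht)).or ((pp_eqc hx 0).and (pp_lec hy 1)))))).or
    ((pp_cle ht 6).and ((pp_lec ht 9).and
      (((pp_cle hx 2).and (pp_eq hy hx)).or
        (((pp_eq hx (psub ht 4)).and (pp_eqc hy 1)).or ((pp_lec hx 1).and (pp_eqc hy 0)))))))

theorem pr_K1 {a b c : α → ℕ} (ha : Primrec a) (hb : Primrec b) (hc : Primrec c) :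
    PrimrecPred fun x => K1 (a x) (b x) (c x) :=
  (pp_imp (pp_eqc (pr_eo ha) 0) (pp_imp (pp_eqc (pr_eo hb) 0) (pp_eqc (pr_eo hc) 0))).and
    ((pp_imp (pp_eqc (pr_eo ha) 2) (pp_imp (pp_eqc (pr_eo hb) 2) (pp_eqc (pr_eo hc) 2))).and
      ((pp_imp (pp_eqc (pr_eo ha) 1) (pp_eq (pr_eo hc) (pr_eo hb))).and
        (pp_imp (pp_eqc (pr_eo hb) 1) (pp_eq (pr_eo hc) (pr_eo ha)))))

theorem pr_K2 {a b c : α → ℕ} (ha : Primrec a) (hb : Primrec b) (hc : Primrec c) :
    PrimrecPred fun x => K2 (a x) (b x) (c x) :=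
  (pp_imp (pp_eqc (pr_es hc) 1) (pp_imp (pp_eqc (pr_eo hc) 0)
    ((pp_eqc (pr_eo ha) 0).and (pp_eqc (pr_eo hb) 0)).not)).and
    ((pp_imp (pp_eqc (pr_es hc) 1) (pp_imp (pp_eqc (pr_eo hc) 2)
      ((pp_nec (pr_eo ha) 0).and (pp_nec (pr_eo hb) 0)))).and
      (pp_imp (pp_eqc (pr_es hc) 1) (pp_nec (pr_eo hc) 1)))

theorem pr_K4a {a b c : α → ℕ} (ha : Primrec a) (hb : Primrec b) (hc : Primrec c) :
    PrimrecPred fun x => K4a (a x) (b x) (c x) :=
  pp_imp (pp_eqc (pr_es hb) 1) (pp_imp (pp_eqc (pr_eo hb) 0)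
    (pp_all4 fun k => pr_hcell (pr_ecc ha k) (pr_ecc hc k)))

theorem pr_K4b {o a b c : α → ℕ} (ho : Primrec o) (ha : Primrec a) (hb : Primrec b)
    (hc : Primrec c) : PrimrecPred fun x => K4b (o x) (a x) (b x) (c x) :=
  pp_imp (pp_eqc (pr_es hb) 1) (pp_imp (pp_eqc (pr_eo hb) 2)
    ((pp_all4 fun k => (pp_ltc (pr_ecc ha k) 2).and (pp_nec (pr_ecc hc k) 0)).and
      (pp_imp (pp_eqc (pdiv ho 4) 1) (pp_eqc (pr_ec (pmod ho 4) hc) 1))))

theorem pr_vert {o b c : α → ℕ} (ho : Primrec o) (hc : Primrec c) (hb : Primrec b) :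
    PrimrecPred fun x => vert (o x) (c x) (b x) :=
  pp_all4 fun k => (pp_imp (pp_eq (Primrec.const k) (pmod ho 4))
    (pr_vcell (pdiv ho 4) (pr_ecc hc k) (pr_ecc hb k))).and
      (pp_imp (pp_eq (Primrec.const k) (pmod ho 4)).not (pp_eq (pr_ecc hb k) (pr_ecc hc k)))

theorem pr_K5a {ra rb : α → ℕ × ℕ × ℕ} {a b c : α → ℕ} (hra : Primrec ra) (hrb : Primrec rb)
    (ha : Primrec a) (hb : Primrec b) (hc : Primrec c) :
    PrimrecPred fun x => K5a (ra x) (rb x) (a x) (b x) (c x) :=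
  pp_imp (pp_eqc (pr_es ha) 1) (pp_imp (pp_eqc (pr_eo ha) 0)
    ((pp_eq (Primrec.snd.comp (Primrec.snd.comp hra)) (Primrec.fst.comp hrb)).and
      (pr_vert (Primrec.fst.comp (Primrec.snd.comp hra)) hc hb)))

theorem pr_K5b {ra rb : α → ℕ × ℕ × ℕ} {a b : α → ℕ} (qs qh : ℕ) (hra : Primrec ra)
    (hrb : Primrec rb) (ha : Primrec a) (hb : Primrec b) :
    PrimrecPred fun x => K5b (ra x) (rb x) qs qh (a x) (b x) :=
  pp_imp (pp_eqc (pr_es ha) 1) (pp_imp (pp_eqc (pr_eo ha) 2)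
    ((pp_eqc (Primrec.fst.comp hra) qh).and ((pp_eqc (Primrec.fst.comp hrb) qs).and
      (pp_all4 fun k => pp_ltc (pr_ecc hb k) 2))))

theorem pr_rul {R : α → List (ℕ × ℕ × ℕ)} {i : α → ℕ} (hR : Primrec R) (hi : Primrec i) :
    Primrec fun a => rul (R a) (i a) :=
  (Primrec.list_getD (0, 0, 0)).comp hR hi

theorem pr_KP {R : α → List (ℕ × ℕ × ℕ)} {a b c : α → ℕ} (qs qh : ℕ) (hR : Primrec R)
    (ha : Primrec a) (hb : Primrec b) (hc : Primrec c) :
    PrimrecPred fun x => KP (R x) qs qh (a x) (b x) (c x) :=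
  (pr_K1 ha hb hc).and ((pr_K2 ha hb hc).and ((pp_eq (pr_er ha) (pr_er hc)).and
    ((pr_K4a ha hb hc).and ((pr_K4b (Primrec.fst.comp (Primrec.snd.comp
      (pr_rul hR (pr_er ha)))) ha hb hc).and
      ((pr_K5a (pr_rul hR (pr_er ha)) (pr_rul hR (pr_er hb)) ha hb hc).and
        (pr_K5b qs qh (pr_rul hR (pr_er ha)) (pr_rul hR (pr_er hb)) ha hb))))))

theorem pr_inTy {m k : α → ℕ} (hm : Primrec m) (hk : Primrec k) :
    PrimrecPred fun x => inTy (m x) (k x) :=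
  (pr_inE hm (pr_t11 hk)).and ((pr_inE hm (pr_t12 hk)).and ((pr_inE hm (pr_t21 hk)).and
    ((pr_inE hm (pr_t22 hk)).and ((pp_eqc (pr_eo (pr_t11 hk)) 1).and
      ((pp_eqc (pr_eo (pr_t22 hk)) 1).and ((pp_nec (pr_eo (pr_t12 hk)) 1).and
        ((pp_nec (pr_eo (pr_t21 hk)) 1).and ((pp_eqc (pr_es (pr_t12 hk)) 1).and
          (pp_eqc (pr_es (pr_t21 hk)) 1)).not)))))))

theorem pr_mat {a b c : α → ℕ} (ha : Primrec a) (hb : Primrec b) (hc : Primrec c) (i j : ℕ) :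
    Primrec fun x => mat (a x) (b x) (c x) i j := by
  unfold mat
  split_ifs
  exacts [pr_t11 ha, pr_t12 ha, pr_t21 hc, pr_t21 ha, pr_t22 ha, pr_t12 hb, pr_t12 hc,
    pr_t21 hb, pr_t22 hb]

theorem pr_legal {R : α → List (ℕ × ℕ × ℕ)} {a b c : α → ℕ} (qs qh : ℕ) (hR : Primrec R)
    (ha : Primrec a) (hb : Primrec b) (hc : Primrec c) :
    PrimrecPred fun x => legalP (R x) qs qh (a x) (b x) (c x) :=
  (pp_eq (pr_t22 ha) (pr_t11 hb)).and ((pp_eq (pr_t22 hb) (pr_t11 hc)).and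
    ((pp_eq (pr_t22 hc) (pr_t11 ha)).and
      (pp_all3 fun i => pp_all3 fun j => pp_all3 fun k =>
        pr_KP qs qh hR (pr_mat ha hb hc i j) (pr_mat ha hb hc j k) (pr_mat ha hb hc i k))))

theorem pr_sq {f : α → ℕ} (hf : Primrec f) : Primrec fun a => sq (f a) :=
  Primrec.nat_mul.comp hf hf

end gen

/-- module TSPR -/
theorem tspr : TsprStatement := by
  intro qs qh R hR
  refine ⟨?_, ?_, ?_, ?_, ?_⟩
  · have h0 : Primrec fun n => 6 + (R n).length :=
      Primrec.nat_add.comp (Primrec.const 6) (Primrec.list_length.comp hR)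
    have key : ∀ s : ℕ → ℕ, Primrec s →
        Primrec fun n => s (s (s (s (s (s (6 + (R n).length)))))) := fun s hs =>
      hs.comp (hs.comp (hs.comp (hs.comp (hs.comp (hs.comp h0)))))
    have h := key sq (pr_sq Primrec.id)
    simp only [tsR]
    exact h
  · have h : PrimrecPred fun x : ℕ × ℕ => inTy (R x.1).length x.2 :=
      pr_inTy (Primrec.list_length.comp (hR.comp Primrec.fst)) Primrec.snd
    have h' : Primrec fun x : ℕ × ℕ => decide (inTy (R x.1).length x.2) := h.decide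
    refine Primrec₂.mk ?_
    simp only [tsR]
    exact h'
  · refine Primrec₂.mk ?_
    simp only [tsR]
    exact pr_mkTy (pr_t22 Primrec.snd) (pr_t21 Primrec.snd) (pr_t12 Primrec.snd)
      (pr_t11 Primrec.snd)
  · refine Primrec₂.mk ?_
    simp only [tsR]
    exact (pp_eqc (pr_es (pr_t12 Primrec.snd)) 1).decide
  · have h : PrimrecPred fun q : ℕ × ℕ × ℕ × ℕ => legalP (R q.1) qs qh q.2.1 q.2.2.1 q.2.2.2 :=
      pr_legal qs qh (hR.comp Primrec.fst) (Primrec.fst.comp Primrec.snd)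
        (Primrec.fst.comp (Primrec.snd.comp Primrec.snd))
        (Primrec.snd.comp (Primrec.snd.comp Primrec.snd))
    have h' : Primrec fun q : ℕ × ℕ × ℕ × ℕ =>
        decide (legalP (R q.1) qs qh q.2.1 q.2.2.1 q.2.2.2) := h.decide
    simp only [tsR]
    exact h'

end Pool.Agent.Lib.MP_226ef1_lc.U.H76
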